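import Pool.Agent.J6H91.TZ.Stm2

/-!
# TZ-LIN: restriction to a line
-/

set_option autoImplicit false

namespace Pool.Agent.J6H95.TZL

open MvPolynomial Filter Topology Pool.Agent.J6H91.Cyc Pool.Agent.Helper334_SA Pool.Agent.J6H91.TZ

/-- evaluation of a polynomial in two variables -/
noncomputable def ph (s w : ℝ) : Polynomial (Polynomial ℝ) →+* ℝ :=
  (Polynomial.evalRingHom s).comp (Polynomial.mapRingHom (Polynomial.evalRingHom w))

theorem kev_eq (k : Polynomial (Polynomial ℝ)) (s w : ℝ) : kev k s w = ph s w k := rfl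

variable {β : Type}

theorem hom_ev {S : Type} [CommRing S] [Algebra ℝ S] (φ : S →+* ℝ)
    (hφ : ∀ r : ℝ, φ (algebraMap ℝ S r) = r) (g : Option β → S) (h : MvPolynomial (Option β) ℝ) :
    φ (aeval g h) = eval (fun o => φ (g o)) h := by
  rw [aeval_def, hom_eval₂]
  have e : φ.comp (algebraMap ℝ S) = RingHom.id ℝ := RingHom.ext hφ
  rw [e]
  rfl

/-- the polynomial on the line -/
noncomputable def kl (p v : β → ℝ) (h : MvPolynomial (Option β) ℝ) : Polynomial (Polynomial ℝ) :=
  aeval (fun o => Option.elim o (Polynomial.C Polynomial.X : Polynomial (Polynomial ℝ)) (fun b =>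
    Polynomial.C (Polynomial.C (p b)) + Polynomial.C (Polynomial.C (v b)) * Polynomial.X)) h

theorem kev_kl (p v : β → ℝ) (h : MvPolynomial (Option β) ℝ) (s w : ℝ) :
    kev (kl p v h) s w = ev2 h (fun b => p b + s * v b) w := by
  rw [kev_eq]
  unfold kl ev2
  rw [hom_ev (ph s w) (fun r => by simp [ph])]
  congr 2
  funext o
  cases o with
  | none => simp [ph]
  | some b => simp [ph]; ring

/-- the polynomial in the variable `w` -/
noncomputable def rl (p : β → ℝ) (h : MvPolynomial (Option β) ℝ) : Polynomial ℝ :=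
  aeval (fun o => Option.elim o (Polynomial.X : Polynomial ℝ) (fun b => Polynomial.C (p b))) h

theorem eval_rl (p : β → ℝ) (h : MvPolynomial (Option β) ℝ) (w : ℝ) :
    (rl p h).eval w = ev2 h p w := by
  unfold rl ev2
  have e := hom_ev (Polynomial.evalRingHom w) (fun r => by simp)
    (fun o => Option.elim o (Polynomial.X : Polynomial ℝ) (fun b => Polynomial.C (p b))) h
  refine e.trans ?_
  congr 2
  funext o
  cases o with
  | none => simp
  | some b => simp

/-- the polynomial in the variables `u` -/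
noncomputable def gl (h : MvPolynomial (Option β) ℝ) (w : ℝ) : MvPolynomial β ℝ :=
  aeval (fun o => Option.elim o (C w : MvPolynomial β ℝ) (fun b => X b)) h

theorem eval_gl (h : MvPolynomial (Option β) ℝ) (u : β → ℝ) (w : ℝ) :
    eval u (gl h w) = ev2 h u w := by
  unfold gl ev2
  rw [hom_ev (eval u) (fun r => by simp)]
  congr 2
  funext o
  cases o with
  | none => simp
  | some b => simp

theorem gl_ne {h : MvPolynomial (Option β) ℝ} {u : β → ℝ} {w : ℝ} (he : ev2 h u w ≠ 0) :
    gl h w ≠ 0 := by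
  intro h0
  rw [← eval_gl, h0, map_zero] at he
  exact he rfl

theorem exists_ne [Fintype β] {g : MvPolynomial β ℝ} (hg : g ≠ 0) {O : Set (β → ℝ)} (hO : IsOpen O)
    (hne : O.Nonempty) : ∃ p ∈ O, eval p g ≠ 0 := by
  obtain ⟨q, hq⟩ := hne
  obtain ⟨ε, hε, hb⟩ := Metric.isOpen_iff.1 hO q hq
  by_contra hcon
  push Not at hcon
  apply hg
  have hinf : ∀ b : β, (Set.Ioo (q b - ε) (q b + ε)).Infinite := fun b =>
    Set.Ioo_infinite (by linarith)
  refine funext_set (fun b => Set.Ioo (q b - ε) (q b + ε)) hinf ?_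
  intro x hx
  rw [map_zero]
  apply hcon
  apply hb
  rw [Metric.mem_ball, dist_pi_lt_iff hε]
  intro b
  have h1 := hx b (Set.mem_univ b)
  rw [Real.dist_eq, abs_lt]
  constructor
  · have := h1.1
    linarith
  · have := h1.2
    linarith

theorem main : S_LIN := by
  intro hB hI hP ι _ _ E hE hT
  obtain ⟨B, E₁, O, h, hsub, hO, hne, hcov, hrel⟩ := hB hI hP ι E hE hT
  classical
  -- a point of `E₁`
  obtain ⟨u0, hu0⟩ := hne
  obtain ⟨x0, hx0, -⟩ := hcov u0 hu0
  -- the point `p`
  have hg0 : (∏ j ∈ Finset.univ.filter (fun j => j ∉ B), gl (h j) (x0 j)) ≠ 0 := by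
    rw [Finset.prod_ne_zero_iff]
    intro j hj
    obtain ⟨-, u, hu⟩ := hrel x0 hx0 j (Finset.mem_filter.1 hj).2
    exact gl_ne hu
  obtain ⟨p, hpO, hp⟩ := exists_ne hg0 hO ⟨u0, hu0⟩
  rw [map_prod, Finset.prod_ne_zero_iff] at hp
  have hr : ∀ j, j ∉ B → rl p (h j) ≠ 0 := by
    intro j hj h0
    apply hp j (Finset.mem_filter.2 ⟨Finset.mem_univ _, hj⟩)
    rw [eval_gl, ← eval_rl, h0, Polynomial.eval_zero]
  -- the point `y`
  have hQ1 : (∏ b : {b // b ∈ B}, (X b - C (p b) : MvPolynomial {b // b ∈ B} ℝ)) ≠ 0 := by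
    rw [Finset.prod_ne_zero_iff]
    intro b _ h0
    have h1 := congrArg (eval (fun _ => p b + 1)) h0
    simp at h1
  have hQ2 : (∏ j : ι, ∏ w ∈ (rl p (h j)).roots.toFinset,
      (if gl (h j) w = 0 then (1 : MvPolynomial {b // b ∈ B} ℝ) else gl (h j) w)) ≠ 0 := by
    rw [Finset.prod_ne_zero_iff]
    intro j _
    rw [Finset.prod_ne_zero_iff]
    intro w _
    split_ifs with h1
    · exact one_ne_zero
    · exact h1
  obtain ⟨y, -, hy⟩ := exists_ne (mul_ne_zero hQ1 hQ2) isOpen_univ Set.univ_nonempty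
  rw [map_mul] at hy
  have hy1 := left_ne_zero_of_mul hy
  have hy2 := right_ne_zero_of_mul hy
  rw [map_prod, Finset.prod_ne_zero_iff] at hy1 hy2
  have hyb : ∀ b : {b // b ∈ B}, y b - p b ≠ 0 := by
    intro b
    have := hy1 b (Finset.mem_univ _)
    simpa using this
  have hyw : ∀ j, ∀ w ∈ (rl p (h j)).roots.toFinset, gl (h j) w ≠ 0 → ev2 (h j) y w ≠ 0 := by
    intro j w hw hne'
    have h1 := hy2 j (Finset.mem_univ _)
    rw [map_prod, Finset.prod_ne_zero_iff] at h1
    have h2 := h1 w hw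
    rw [if_neg hne', eval_gl] at h2
    exact h2
  -- the line
  have hcont : Continuous (fun s : ℝ => (fun b => p b + s * (y b - p b) : {b // b ∈ B} → ℝ)) := by
    apply continuous_pi
    intro b
    exact continuous_const.add (continuous_id.mul continuous_const)
  have hopen := hO.preimage hcont
  have h0mem : (0 : ℝ) ∈ (fun s : ℝ => (fun b => p b + s * (y b - p b) : {b // b ∈ B} → ℝ)) ⁻¹' O := by
    change (fun b => p b + 0 * (y b - p b)) ∈ O
    simpa using hpO
  obtain ⟨δ, hδ, hball⟩ := Metric.isOpen_iff.1 hopen 0 h0mem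
  have hch : ∀ s : ℝ, ∃ x : ι → ℝ, s ∈ Set.Ioo (-δ) δ → x ∈ E₁ ∧
      ∀ b : {b // b ∈ B}, x b = p b + s * (y b - p b) := by
    intro s
    by_cases hs : s ∈ Set.Ioo (-δ) δ
    · have hs' : s ∈ Metric.ball (0 : ℝ) δ := by
        rw [Real.ball_eq_Ioo, zero_sub, zero_add]
        exact hs
      obtain ⟨x, hx1, hx2⟩ := hcov _ (hball hs')
      exact ⟨x, fun _ => ⟨hx1, hx2⟩⟩
    · exact ⟨0, fun hs' => absurd hs' hs⟩
  choose x hx using hch
  refine ⟨δ, x, fun j => if hj : j ∈ B then
    Polynomial.C (Polynomial.X - Polynomial.C (p ⟨j, hj⟩)) -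
      Polynomial.C (Polynomial.C (y ⟨j, hj⟩ - p ⟨j, hj⟩)) * Polynomial.X
    else kl p (fun b => y b - p b) (h j), hδ, ?_⟩
  intro s hs
  obtain ⟨hx1, hx2⟩ := hx s hs
  refine ⟨hsub hx1, fun j => ?_⟩
  by_cases hj : j ∈ B
  · simp only [dif_pos hj]
    have e := hx2 ⟨j, hj⟩
    constructor
    · rw [kev_eq]
      simp only [ph, RingHom.comp_apply, Polynomial.coe_mapRingHom, Polynomial.coe_evalRingHom]
      simp
      rw [e]
      ring
    · intro h0
      have h1 := congrArg (fun q => Polynomial.coeff q 1) h0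
      simp at h1
      exact hyb ⟨j, hj⟩ (by linarith)
  · simp only [dif_neg hj]
    obtain ⟨h1, u, h2⟩ := hrel (x s) hx1 j hj
    have e : (fun b : {b // b ∈ B} => x s b) = fun b => p b + s * (y b - p b) := funext hx2
    rw [e] at h1
    refine ⟨by rw [kev_kl]; exact h1, fun h0 => ?_⟩
    have hk : ∀ s', kev (kl p (fun b => y b - p b) (h j)) s' (x s j) = 0 := by
      intro s'
      unfold kev
      rw [h0, Polynomial.eval_zero]
    have hk0 := hk 0
    have hk1 := hk 1
    rw [kev_kl] at hk0 hk1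
    simp only [zero_mul, add_zero, one_mul, add_sub_cancel] at hk0 hk1
    refine hyw j (x s j) ?_ (gl_ne h2) hk1
    rw [Multiset.mem_toFinset, Polynomial.mem_roots (hr j hj), Polynomial.IsRoot.def, eval_rl]
    exact hk0

end Pool.Agent.J6H95.TZL
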